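import Pool.Agent.PFJ.StmtsG

/-!
# PFJ squad (MP_e54c4c_gt), row G_BP2: a simultaneously biproximal element
-/

set_option autoImplicit false

open Matrix Filter Topology

namespace Pool.Agent.PFJ.H13

open Pool.Agent.PFS

theorem ind2_symm {n : ℕ} {x y : V n} (h : Ind2 x y) : Ind2 y x := by
  intro a b hab
  rw [add_comm] at hab
  exact (h b a hab).symm

theorem ind2_ne {n : ℕ} {x y : V n} (h : Ind2 x y) : x ≠ 0 := by
  intro h0
  have := (h 1 0 (by rw [h0, smul_zero, zero_smul, add_zero])).1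
  exact one_ne_zero this

/-- **Row BP2.** -/
theorem bp2 (fcu : FcuStmt) (chb : ChbStmt) (nun : NunStmt) (zb2 : Zb2Stmt) (ei2 : Ei2Stmt)
    (bpb : BpbStmt) : Bp2Stmt := by
  classical
  intro n C Γ K P h L w β hB hP
  have hCC : CC C Γ := h.toCC
  obtain ⟨hun, hind, hwf⟩ := nun n C Γ hCC K L w β hB
  have hwcl : ∀ i, w i ∈ closure C := fun i => (hwf i).1
  have hw0 : ∀ i, w i ≠ 0 := fun i => (hwf i).2
  -- the coefficients
  obtain ⟨c, hc⟩ : ∃ c : ℕ → Fin K → ℝ, c = fun (m : ℕ) i =>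
      if ∃ j, i < j ∧ β i = β j then Real.exp (m : ℝ) else
        if ∃ j, j < i ∧ β i = β j then (Real.exp (m : ℝ))⁻¹ else 1 := ⟨_, rfl⟩
  have hcpos : ∀ m i, 0 < c m i := by
    intro m i
    rw [hc]
    dsimp only
    split_ifs
    · exact Real.exp_pos _
    · exact inv_pos.2 (Real.exp_pos _)
    · exact one_pos
  have hc0 : ∀ m i j, i < j → β i = β j → c m i = Real.exp (m : ℝ) := by
    intro m i j hij hβ
    rw [hc]
    dsimp only
    rw [if_pos ⟨j, hij, hβ⟩]
  have hc1 : ∀ m i j, i < j → β i = β j → c m j = (Real.exp (m : ℝ))⁻¹ := by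
    intro m i j hij hβ
    rw [hc]
    dsimp only
    rw [if_neg, if_pos ⟨i, hij, hβ.symm⟩]
    rintro ⟨l, hl, hβl⟩
    rcases hB.three i j l hβ hβl with e | e | e
    · exact absurd e (ne_of_lt hij)
    · exact absurd e (ne_of_lt hl)
    · exact absurd e (ne_of_lt (hij.trans hl))
  obtain ⟨φ, g, s, L', W, hφ, hg, hs, hBW, hPW, hlim, himg⟩ :=
    zb2 n C Γ K P h L w β hB hP c hcpos
  obtain ⟨hun', hind', hwf'⟩ := nun n C Γ hCC K L' W β hBW
  have he : Tendsto (fun m => Real.exp (φ m : ℝ)) atTop atTop :=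
    Real.tendsto_exp_atTop.comp (tendsto_natCast_atTop_atTop.comp hφ.tendsto_atTop)
  -- every pair
  have hpair : ∀ i j, i < j → β i = β j → ∀ᶠ m0 in atTop, ∀ᶠ m in atTop,
      ∃ (y0 y1 : V n) (lam mu : ℝ), y0 ∈ L (β i) ∧ y1 ∈ L (β i) ∧
      y0 ∈ closure C ∧ y1 ∈ closure C ∧ Ind2 y0 y1 ∧ 0 < lam ∧ lam < mu ∧
      act ((g m0)⁻¹ * g m) y0 = lam • y0 ∧ act ((g m0)⁻¹ * g m) y1 = mu • y1 := by
    intro i j hij hβ
    have hne : i ≠ j := ne_of_lt hij
    have hu : w i + w j = ∑ l ∈ Finset.univ.filter (fun l => β l = β i), w l := by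
      have hf : Finset.univ.filter (fun l => β l = β i) = {i, j} := by
        ext l
        simp only [Finset.mem_filter, Finset.mem_univ, true_and, Finset.mem_insert,
          Finset.mem_singleton]
        constructor
        · intro hl
          rcases hB.three l i j hl hβ with e | e | e
          · exact Or.inl e
          · exact absurd e hne
          · exact Or.inr e
        · rintro (e | e)
          · rw [e]
          · rw [e, hβ]
      rw [hf, Finset.sum_pair hne]
    obtain ⟨-, -, -, f4, f5, -⟩ := fcu n C Γ hCC K h.three L w β hB (h.fam.full _ hP) i _ hu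
    have hm1 : w j ∈ L (β i) := by rw [hβ]; exact hB.mem j
    have hM1 : W j ∈ L' (β i) := by rw [hβ]; exact hBW.mem j
    have hn1 : ¬ Unt C (L (β i)) (w j) := by rw [hβ]; exact hun j i hne.symm hβ.symm
    have hN1 : ¬ Unt C (L' (β i)) (W j) := by rw [hβ]; exact hun' j i hne.symm hβ.symm
    refine bpb n C Γ hCC (L (β i)) (L' (β i)) (w i) (w j) (W i) (W j) g s
      (fun m => Real.exp (φ m : ℝ)) (h.strict L w β hB hP (β i)) (h.strict L' W β hBW hPW (β i))
      f5 f4 (hB.mem i) hm1 (hwcl i) (hwcl j) (hind i j hne) (hun i j hne hβ) hn1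
      (hBW.mem i) hM1 (hwf' i).1 (hwf' j).1 (hind' i j hne) (hun' i j hne hβ) hN1
      hg hs (fun m => Real.exp_pos _) he (fun m => himg m (β i)) ?_ ?_
    · refine (hlim i).congr fun m => ?_
      rw [hc0 (φ m) i j hij hβ]
    · refine (hlim j).congr fun m => ?_
      rw [hc1 (φ m) i j hij hβ]
  have hall : ∀ᶠ m0 in atTop, ∀ i j, i < j → β i = β j → ∀ᶠ m in atTop,
      ∃ (y0 y1 : V n) (lam mu : ℝ), y0 ∈ L (β i) ∧ y1 ∈ L (β i) ∧
      y0 ∈ closure C ∧ y1 ∈ closure C ∧ Ind2 y0 y1 ∧ 0 < lam ∧ lam < mu ∧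
      act ((g m0)⁻¹ * g m) y0 = lam • y0 ∧ act ((g m0)⁻¹ * g m) y1 = mu • y1 := by
    rw [eventually_all]
    intro i
    rw [eventually_all]
    intro j
    by_cases hij : i < j
    · by_cases hβ : β i = β j
      · filter_upwards [hpair i j hij hβ] with m0 hm0 _ _
        exact hm0
      · exact Eventually.of_forall fun m0 _ h' => absurd h' hβ
    · exact Eventually.of_forall fun m0 h' _ => absurd h' hij
  obtain ⟨m0, hm0⟩ := hall.exists
  have hall2 : ∀ᶠ m in atTop, ∀ i j, i < j → β i = β j →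
      ∃ (y0 y1 : V n) (lam mu : ℝ), y0 ∈ L (β i) ∧ y1 ∈ L (β i) ∧
      y0 ∈ closure C ∧ y1 ∈ closure C ∧ Ind2 y0 y1 ∧ 0 < lam ∧ lam < mu ∧
      act ((g m0)⁻¹ * g m) y0 = lam • y0 ∧ act ((g m0)⁻¹ * g m) y1 = mu • y1 := by
    rw [eventually_all]
    intro i
    rw [eventually_all]
    intro j
    by_cases hij : i < j
    · by_cases hβ : β i = β j
      · filter_upwards [hm0 i j hij hβ] with m hm _ _
        exact hm
      · exact Eventually.of_forall fun m _ h' => absurd h' hβ
    · exact Eventually.of_forall fun m h' _ => absurd h' hij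
  obtain ⟨m, hm⟩ := hall2.exists
  obtain ⟨σ, hσ⟩ : ∃ σ : GL (Fin n) ℝ, σ = (g m0)⁻¹ * g m := ⟨_, rfl⟩
  rw [← hσ] at hm
  have hσΓ : σ ∈ Γ := by rw [hσ]; exact Γ.mul_mem (Γ.inv_mem (hg m0)) (hg m)
  have hσact : ∀ y : V n, act (g m0) (act σ y) = act (g m) y := by
    intro y
    rw [← CC.act_mul, hσ]
    congr 2
    group
  have hmapL : ∀ a, ∀ y ∈ L a, act σ y ∈ L a := by
    intro a y hy
    have h1 : act (g m) y ∈ L' a := by
      rw [← himg m a]
      exact mem_img.2 ⟨y, hy, rfl⟩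
    rw [← himg m0 a] at h1
    obtain ⟨z, hz, hze⟩ := mem_img.1 h1
    rw [← hσact y] at hze
    rwa [← CC.act_injective (g m0) hze]
  -- single vertices
  have hsing : ∀ i, (∀ j, β j = β i → j = i) → ∃ c : ℝ, 0 < c ∧ act σ (w i) = c • w i := by
    intro i hsg
    have hne : act σ (w i) ≠ 0 := by
      intro h
      apply hw0 i
      apply CC.act_injective σ
      rw [h, CC.act_zero]
    have hcl : act σ (w i) ∈ closure C := hCC.act_cl hσΓ (hwcl i)
    obtain ⟨c, hce⟩ := hB.one i hsg _ (hmapL _ _ (hB.mem i))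
    refine ⟨c, ?_, hce⟩
    rcases lt_trichotomy c 0 with hc | hc | hc
    · exfalso
      apply hne
      apply hCC.salient _ hcl
      rw [hce, ← neg_smul]
      exact hCC.cl_smul (hwcl i) (by linarith)
    · exfalso
      apply hne
      rw [hce, hc, zero_smul]
    · exact hc
  -- one fibre
  have hfib : ∀ a : Fin K, ∃ (v : Fin K → V n) (ν : Fin K → ℝ), ∀ i, β i = a →
      v i ∈ L a ∧ v i ∈ closure C ∧ v i ≠ 0 ∧ 0 < ν i ∧ act σ (v i) = ν i • v i ∧
      ∀ j, i ≠ j → β j = a → Ind2 (v i) (v j) ∧ ¬ Unt C (L a) (v i) ∧ ν i ≠ ν j := by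
    intro a
    by_cases hp : ∃ i j, i < j ∧ β i = a ∧ β j = a
    · obtain ⟨i, j, hij, hia, hja⟩ := hp
      have hβ : β i = β j := by rw [hia, hja]
      have hne : i ≠ j := ne_of_lt hij
      obtain ⟨y0, y1, lam, mu, a1, a2, a3, a4, a5, a6, a7, a8, a9⟩ := hm i j hij hβ
      rw [hia] at a1 a2
      obtain ⟨-, n0, n1⟩ := ei2 n C Γ hCC (L a) (h.strict L w β hB hP a) σ hσΓ y0 y1 lam mu
        a1 a2 a3 a4 a5 a6 a7 a8 a9
      refine ⟨fun l => if l = i then y0 else y1, fun l => if l = i then lam else mu, ?_⟩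
      have hor : ∀ l, β l = a → l = i ∨ l = j := by
        intro l hl
        rcases hB.three l i j (by rw [hl, hia]) hβ with e | e | e
        · exact Or.inl e
        · exact absurd e hne
        · exact Or.inr e
      intro l hl
      rcases hor l hl with e | e
      · subst e
        dsimp only
        rw [if_pos rfl, if_pos rfl]
        refine ⟨a1, a3, ind2_ne a5, a6, a8, fun k hk hka => ?_⟩
        rcases hor k hka with e' | e'
        · exact absurd e'.symm hk
        · subst e'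
          rw [if_neg hne.symm, if_neg hne.symm]
          exact ⟨a5, n0, ne_of_lt a7⟩
      · subst e
        dsimp only
        rw [if_neg hne.symm, if_neg hne.symm]
        refine ⟨a2, a4, ind2_ne (ind2_symm a5), a6.trans a7, a9, fun k hk hka => ?_⟩
        rcases hor k hka with e' | e'
        · subst e'
          rw [if_pos rfl, if_pos rfl]
          exact ⟨ind2_symm a5, n1, (ne_of_lt a7).symm⟩
        · exact absurd e'.symm hk
    · have hsg : ∀ i j, β i = a → β j = a → i = j := by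
        intro i j hi hj
        by_contra hne
        rcases lt_or_gt_of_ne hne with h' | h'
        · exact hp ⟨i, j, h', hi, hj⟩
        · exact hp ⟨j, i, h', hj, hi⟩
      have hex : ∀ i, ∃ c : ℝ, β i = a → 0 < c ∧ act σ (w i) = c • w i := by
        intro i
        by_cases hi : β i = a
        · obtain ⟨c, hc⟩ := hsing i (fun j hj => hsg j i (by rw [hj, hi]) hi)
          exact ⟨c, fun _ => hc⟩
        · exact ⟨1, fun h' => absurd h' hi⟩
      choose ν hν using hex
      refine ⟨w, ν, fun i hi => ⟨?_, hwcl i, hw0 i, (hν i hi).1, (hν i hi).2, fun j hij hj => ?_⟩⟩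
      · rw [← hi]; exact hB.mem i
      · exact absurd (hsg i j hi hj) hij
  choose v ν hv using hfib
  refine ⟨fun i => v (β i) i, σ, fun i => ν (β i) i, ?_, hσΓ, fun i => ?_, fun i j hij hβ => ?_⟩
  · refine chb n C Γ hCC K h.three L w β hB (h.fam.full _ hP) (h.strict L w β hB hP) _
      (fun i => ?_) (fun i j hij hβ => ?_)
    · obtain ⟨b1, b2, b3, -⟩ := hv (β i) i rfl
      exact ⟨b1, b2, b3⟩
    · obtain ⟨-, -, -, -, -, b6⟩ := hv (β i) i rfl
      obtain ⟨b7, b8, -⟩ := b6 j hij hβ.symm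
      rw [← hβ]
      exact ⟨b7, b8⟩
  · obtain ⟨-, -, -, b4, b5, -⟩ := hv (β i) i rfl
    exact ⟨b4, b5⟩
  · obtain ⟨-, -, -, -, -, b6⟩ := hv (β i) i rfl
    obtain ⟨-, -, b9⟩ := b6 j hij hβ.symm
    dsimp only
    rw [← hβ]
    exact b9

end Pool.Agent.PFJ.H13
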