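import Pool.Agent.PFJ.StmtsG

/-!
# PFJ squad (MP_e54c4c_gt), row G_SE2: Selberg's centraliser trick (several blocks)
-/

set_option autoImplicit false

open Matrix Filter Topology

namespace Pool.Agent.PFJ.H13

open Pool.Agent.PFS

/-- the quantity whose limit is bounded -/
theorem tend_bot {K : ℕ} (ℓ : Fin K → ℝ) (hℓ : ℓ ≠ 0) (Q : ℕ → ℝ) (q : ℝ)
    (hQ : Tendsto Q atTop (𝓝 q)) (φ : ℕ → ℕ) (hφ : StrictMono φ) (b : ℝ) :
    ∀ᶠ m in atTop, Q m - (φ m : ℝ) * ∑ i, ℓ i ^ 2 < b := by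
  have hS : 0 < ∑ i, ℓ i ^ 2 := by
    obtain ⟨i, hi⟩ := Function.ne_iff.mp hℓ
    apply Finset.sum_pos' (fun j _ => sq_nonneg _)
    exact ⟨i, Finset.mem_univ i, by simpa using (sq_pos_of_ne_zero hi)⟩
  have h1 : Tendsto (fun m => (φ m : ℝ) * ∑ i, ℓ i ^ 2) atTop atTop :=
    (tendsto_natCast_atTop_atTop.comp hφ.tendsto_atTop).atTop_mul_const hS
  have h2 : Tendsto (fun m => Q m - (φ m : ℝ) * ∑ i, ℓ i ^ 2) atTop atBot := by
    have h3 : Tendsto (fun m => Q m + -((φ m : ℝ) * ∑ i, ℓ i ^ 2)) atTop atBot :=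
      hQ.add_atBot (tendsto_neg_atTop_atBot.comp h1)
    exact h3
  exact h2.eventually (eventually_lt_atBot b)

/-- **Row SE2.** -/
theorem se2 (nun : NunStmt) (zb2 : Zb2Stmt) (ei2 : Ei2Stmt) (fix : PFB.FixStmt) : Se2Stmt := by
  intro n C Γ K P h L w β hB hP σ nu hσ hnu hnn ℓ hℓ hℓs
  classical
  have hCC : CC C Γ := h.toCC
  have hind := (nun n C Γ hCC K L w β hB).2.1
  have hwcl : ∀ i, w i ∈ closure C := fun i => ((nun n C Γ hCC K L w β hB).2.2 i).1
  have hw0 : ∀ i, w i ≠ 0 := fun i => ((nun n C Γ hCC K L w β hB).2.2 i).2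
  -- the zooming sequence
  obtain ⟨φ, g, s, L', W, hφ, hg, hs, hBW, hPW, hlim, himg⟩ :=
    zb2 n C Γ K P h L w β hB hP (fun m i => Real.exp ((m : ℝ) * ℓ i))
      (fun m i => Real.exp_pos _)
  have hW0 : ∀ i, W i ≠ 0 := fun i => ((nun n C Γ hCC K L' W β hBW).2.2 i).2
  -- finitely many conjugates
  have hp : ∑ i, W i ∈ C := by
    have := hBW.pes.1.pos (fun _ => 1) (fun _ => one_pos)
    simpa using this
  have hfin := fix n C Γ hCC K w hB.pes σ hσ (fun i => ⟨nu i, hnu i⟩) g s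
    (fun m i => Real.exp (((φ m : ℕ) : ℝ) * ℓ i)) (∑ i, W i) hg hs
    (fun m i => Real.exp_pos _) hp (by
      have : Tendsto (fun m => ∑ i, s m • act (g m) (Real.exp (((φ m : ℕ) : ℝ) * ℓ i) • w i))
          atTop (𝓝 (∑ i, W i)) := tendsto_finsetSum _ fun i _ => hlim i
      refine this.congr fun m => ?_
      rw [CC.act_sum, Finset.smul_sum])
  -- an infinite set of indices with the same conjugate
  have hinf : ∃ τ : GL (Fin n) ℝ, {m : ℕ | g m * σ * (g m)⁻¹ = τ}.Infinite := by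
    by_contra hcon
    push Not at hcon
    have hun : (Set.univ : Set ℕ) ⊆ ⋃ τ ∈ (Set.range fun m => g m * σ * (g m)⁻¹),
        {m : ℕ | g m * σ * (g m)⁻¹ = τ} := by
      intro m _
      simp only [Set.mem_iUnion]
      exact ⟨g m * σ * (g m)⁻¹, ⟨m, rfl⟩, rfl⟩
    have : (Set.univ : Set ℕ).Finite :=
      (hfin.biUnion fun τ _ => hcon τ).subset hun
    exact Set.infinite_univ this
  obtain ⟨τ, hτ⟩ := hinf
  obtain ⟨m0, hm0⟩ := hτ.nonempty
  -- the norms
  set Q : ℕ → ℝ := fun m => ∑ i, ℓ i *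
    Real.log ‖s m • act (g m) (Real.exp (((φ m : ℕ) : ℝ) * ℓ i) • w i)‖ with hQdef
  have hQ : Tendsto Q atTop (𝓝 (∑ i, ℓ i * Real.log ‖W i‖)) := by
    apply tendsto_finsetSum
    intro i _
    exact ((hlim i).norm.log (norm_ne_zero_iff.mpr (hW0 i))).const_mul (ℓ i)
  obtain ⟨N, hN⟩ := eventually_atTop.mp
    (tend_bot ℓ hℓ Q _ hQ φ hφ (Q m0 - (φ m0 : ℝ) * ∑ i, ℓ i ^ 2))
  obtain ⟨m, hm, hmN⟩ := hτ.exists_gt N
  have hlt := hN m hmN.le
  -- the element
  set γ : GL (Fin n) ℝ := (g m0)⁻¹ * g m with hγ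
  have hγΓ : γ ∈ Γ := Γ.mul_mem (Γ.inv_mem (hg m0)) (hg m)
  have hcomm : σ * γ = γ * σ := by
    have e : g m * σ * (g m)⁻¹ = g m0 * σ * (g m0)⁻¹ := by
      rw [show g m * σ * (g m)⁻¹ = τ from hm, show g m0 * σ * (g m0)⁻¹ = τ from hm0]
    have e2 : g m * σ = g m0 * σ * (g m0)⁻¹ * g m := by
      rw [← e]; group
    rw [hγ]
    calc σ * ((g m0)⁻¹ * g m) = (g m0)⁻¹ * (g m0 * σ * (g m0)⁻¹ * g m) := by group
      _ = (g m0)⁻¹ * (g m * σ) := by rw [e2]
      _ = (g m0)⁻¹ * g m * σ := by group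
  have hγact : ∀ y : V n, act (g m0) (act γ y) = act (g m) y := by
    intro y
    rw [← CC.act_mul, hγ]
    congr 2
    group
  -- gamma preserves the factors
  have hmapL : ∀ a, ∀ y ∈ L a, act γ y ∈ L a := by
    intro a y hy
    have h1 : act (g m) y ∈ L' a := by
      rw [← himg m a]
      exact mem_img.2 ⟨y, hy, rfl⟩
    rw [← himg m0 a] at h1
    obtain ⟨z, hz, hze⟩ := mem_img.1 h1
    rw [← hγact y] at hze
    rwa [← CC.act_injective (g m0) hze]
  have hcommact : ∀ y : V n, act σ (act γ y) = act γ (act σ y) := by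
    intro y
    rw [← CC.act_mul, ← CC.act_mul, hcomm]
  have hE : ∀ i, act σ (act γ (w i)) = nu i • act γ (w i) := by
    intro i
    rw [hcommact, (hnu i).2, CC.act_smul]
  have hne : ∀ i, act γ (w i) ≠ 0 := by
    intro i h
    apply hw0 i
    apply CC.act_injective γ
    rw [h, CC.act_zero]
  have hcl : ∀ i, act γ (w i) ∈ closure C := fun i => hCC.act_cl hγΓ (hwcl i)
  have hall : ∀ i, ∃ c : ℝ, 0 < c ∧ act γ (w i) = c • w i := by
    intro i
    by_cases hsg : ∀ j, β j = β i → j = i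
    · obtain ⟨c, hce⟩ := hB.one i hsg _ (hmapL _ _ (hB.mem i))
      refine ⟨c, ?_, hce⟩
      rcases lt_trichotomy c 0 with hc | hc | hc
      · exfalso
        apply hne i
        apply hCC.salient _ (hcl i)
        rw [hce, ← neg_smul]
        exact hCC.cl_smul (hwcl i) (by linarith)
      · exfalso
        apply hne i
        rw [hce, hc, zero_smul]
      · exact hc
    · push Not at hsg
      obtain ⟨j, hj, hji⟩ := hsg
      have hmj : w j ∈ L (β i) := by rw [← hj]; exact hB.mem j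
      have hnij : nu i ≠ nu j := hnn i j hji.symm hj.symm
      have hbad : ∀ c : ℝ, act γ (w i) = c • w j → False := by
        intro c hce
        have e1 := hE i
        have e2 : act σ (act γ (w i)) = nu j • act γ (w i) := by
          rw [hce, CC.act_smul, (hnu j).2, smul_comm]
        rw [e2] at e1
        have e3 : (nu j - nu i) • act γ (w i) = 0 := by rw [sub_smul, e1, sub_self]
        rcases smul_eq_zero.mp e3 with h | h
        · exact hnij (sub_eq_zero.mp h).symm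
        · exact hne i h
      rcases lt_or_gt_of_ne hnij with hlt' | hlt'
      · rcases (ei2 n C Γ hCC (L (β i)) (h.strict L w β hB hP (β i)) σ hσ (w i) (w j) (nu i)
          (nu j) (hB.mem i) hmj (hwcl i) (hwcl j) (hind i j hji.symm) (hnu i).1 hlt' (hnu i).2
          (hnu j).2).1 _ (hmapL _ _ (hB.mem i)) (hcl i) (hne i) (nu i) (hE i) with
          ⟨c, hc, he⟩ | ⟨c, hc, he⟩
        · exact ⟨c, hc, he⟩
        · exact (hbad c he).elim
      · rcases (ei2 n C Γ hCC (L (β i)) (h.strict L w β hB hP (β i)) σ hσ (w j) (w i) (nu j)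
          (nu i) hmj (hB.mem i) (hwcl j) (hwcl i) (hind j i hji) (hnu j).1 hlt' (hnu j).2
          (hnu i).2).1 _ (hmapL _ _ (hB.mem i)) (hcl i) (hne i) (nu i) (hE i) with
          ⟨c, hc, he⟩ | ⟨c, hc, he⟩
        · exact (hbad c he).elim
        · exact ⟨c, hc, he⟩
  choose c hc hcw using hall
  refine ⟨γ, hγΓ, fun i => Real.log (c i), fun i => by rw [Real.exp_log (hc i)]; exact hcw i, ?_⟩
  -- the computation
  have hgm : ∀ i, act (g m) (w i) = c i • act (g m0) (w i) := by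
    intro i
    rw [← hγact, hcw i, CC.act_smul]
  have hn0 : ∀ i, 0 < ‖act (g m0) (w i)‖ := by
    intro i
    rw [norm_pos_iff]
    intro h
    apply hw0 i
    apply CC.act_injective (g m0)
    rw [h, CC.act_zero]
  have hlogm : ∀ i, Real.log ‖s m • act (g m) (Real.exp (((φ m : ℕ) : ℝ) * ℓ i) • w i)‖ =
      Real.log (s m) + (φ m : ℝ) * ℓ i + Real.log (c i) + Real.log ‖act (g m0) (w i)‖ := by
    intro i
    rw [CC.act_smul, hgm i, norm_smul, norm_smul, norm_smul, Real.norm_of_nonneg (hs m).le,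
      Real.norm_of_nonneg (Real.exp_pos _).le, Real.norm_of_nonneg (hc i).le,
      Real.log_mul (hs m).ne' (by have := hc i; have := hn0 i; positivity),
      Real.log_mul (Real.exp_pos _).ne' (by have := hc i; have := hn0 i; positivity),
      Real.log_mul (hc i).ne' (hn0 i).ne', Real.log_exp]
    ring
  have hlogm0 : ∀ i, Real.log ‖s m0 • act (g m0) (Real.exp (((φ m0 : ℕ) : ℝ) * ℓ i) • w i)‖ =
      Real.log (s m0) + (φ m0 : ℝ) * ℓ i + Real.log ‖act (g m0) (w i)‖ := by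
    intro i
    rw [CC.act_smul, norm_smul, norm_smul, Real.norm_of_nonneg (hs m0).le,
      Real.norm_of_nonneg (Real.exp_pos _).le,
      Real.log_mul (hs m0).ne' (by have := hn0 i; positivity),
      Real.log_mul (Real.exp_pos _).ne' (hn0 i).ne', Real.log_exp]
    ring
  have hQm : Q m = (φ m : ℝ) * ∑ i, ℓ i ^ 2 + ∑ i, ℓ i * Real.log (c i) +
      ∑ i, ℓ i * Real.log ‖act (g m0) (w i)‖ := by
    rw [hQdef]
    simp only [hlogm]
    have : ∀ i, ℓ i * (Real.log (s m) + (φ m : ℝ) * ℓ i + Real.log (c i) +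
        Real.log ‖act (g m0) (w i)‖) = Real.log (s m) * ℓ i + (φ m : ℝ) * ℓ i ^ 2 +
        ℓ i * Real.log (c i) + ℓ i * Real.log ‖act (g m0) (w i)‖ := fun i => by ring
    simp only [this]
    rw [Finset.sum_add_distrib, Finset.sum_add_distrib, Finset.sum_add_distrib, ← Finset.mul_sum,
      ← Finset.mul_sum, hℓs, mul_zero, zero_add]
  have hQm0 : Q m0 = (φ m0 : ℝ) * ∑ i, ℓ i ^ 2 +
      ∑ i, ℓ i * Real.log ‖act (g m0) (w i)‖ := by
    rw [hQdef]
    simp only [hlogm0]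
    have : ∀ i, ℓ i * (Real.log (s m0) + (φ m0 : ℝ) * ℓ i +
        Real.log ‖act (g m0) (w i)‖) = Real.log (s m0) * ℓ i + (φ m0 : ℝ) * ℓ i ^ 2 +
        ℓ i * Real.log ‖act (g m0) (w i)‖ := fun i => by ring
    simp only [this]
    rw [Finset.sum_add_distrib, Finset.sum_add_distrib, ← Finset.mul_sum,
      ← Finset.mul_sum, hℓs, mul_zero, zero_add]
  rw [hQm, hQm0] at hlt
  intro h
  rw [h] at hlt
  linarith

end Pool.Agent.PFJ.H13
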