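import Pool.Agent.PFJ.StmtsG

/-!
# PFJ squad (MP_e54c4c_gt), row G_ZB2: zooming at a box
-/

set_option autoImplicit false

open Matrix Filter Topology

namespace Pool.Agent.PFJ.H13

open Pool.Agent.PFS

/-- Kuratowski limits pass to tails -/
theorem limS_add {n : ℕ} {L : ℕ → Submodule ℝ (V n)} {L' : Submodule ℝ (V n)} (h : LimS L L')
    (N : ℕ) : LimS (fun m => L (m + N)) L' := by
  refine ⟨fun x hx => ?_, fun φ y x hφ hy hyx => ?_⟩
  · obtain ⟨y, hy, hyx⟩ := h.1 x hx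
    exact ⟨fun m => y (m + N), fun m => hy (m + N), (tendsto_add_atTop_iff_nat N).2 hyx⟩
  · exact h.2 (fun m => φ m + N) y x (fun a b hab => by
      have := hφ hab
      show φ a + N < φ b + N
      omega) hy hyx

/-- **Row ZB2.** -/
theorem zb2 (elm : ElmStmt) (zom : ZomStmt) (boa : BoaStmt) (evb : EvbStmt) : Zb2Stmt := by
  classical
  intro n C Γ K P h L w β hB hP c hc
  have hCC : CC C Γ := h.toCC
  have hp := hB.pes
  -- zoom
  have hpC : ∀ m : ℕ, ∑ i, c m i • w i ∈ C := fun m => hp.1.pos _ fun i => hc m i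
  have hpH : ∀ m : ℕ, ∑ i, c m i • w i ∈ Hull C Γ := fun m =>
    (elm n C Γ hCC (Fin K) w hp).2.2.2.1 _ fun i => hc m i
  obtain ⟨φ, g, s, q, hφ, hg, hs, hq, hlim⟩ := zom n C Γ hCC _ hpC hpH
  obtain ⟨x, hx⟩ : ∃ x : ℕ → Fin K → V n,
      x = fun m i => s m • act (g m) (c (φ m) i • w i) := ⟨_, rfl⟩
  have hxv : ∀ m i, x m i = s m • act (g m) (c (φ m) i • w i) := fun m i => by rw [hx]
  have hxB : ∀ m, Box C Γ (fun a => img (g m) (L a)) (x m) β := by
    intro m
    have b1 := (boa n C Γ hCC K L w β hB).1 (c (φ m)) (hc (φ m))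
    have b2 := (boa n C Γ hCC K L _ β b1).2.1 (g m) (hg m) (s m) (hs m)
    have e : x m = fun i => s m • act (g m) (c (φ m) i • w i) := by funext i; exact hxv m i
    rw [e]; exact b2
  have hxs : Tendsto (fun m => ∑ i, x m i) atTop (𝓝 q) := by
    refine hlim.congr fun m => ?_
    simp only [hxv]
    rw [CC.act_sum, Finset.smul_sum]
  have hPm : ∀ m, P (⨆ a, img (g m) (L a)) := by
    intro m
    rw [(boa n C Γ hCC K L w β hB).2.2.1 (g m)]
    exact h.fam.act _ hP (g m) (hg m)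
  obtain ⟨φ₂, L', W, hφ₂, hBW, hxW, hLa, hLs, hfin⟩ :=
    h.lim (fun m a => img (g m) (L a)) x β q hxB hq hxs
  have hWC : ∑ i, W i ∈ C := by
    have := hBW.pes.1.pos (fun _ => 1) (fun _ => one_pos)
    simpa using this
  have hPL : P (⨆ a, L' a) := by
    refine h.fam.closed (fun m => ⨆ a, img (g (φ₂ m)) (L a)) _ (fun m => hPm _) hLs hfin
      ⟨∑ i, W i, ?_, hWC⟩
    exact Submodule.sum_mem _ fun i _ => (le_iSup L' (β i)) (hBW.mem i)
  obtain ⟨N, hN⟩ := eventually_atTop.1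
    (h.dsc L' W β (fun m a => img (g (φ₂ m)) (L a)) (fun m => x (φ₂ m)) (fun _ => β) hBW hPL
      (fun m => hxB _) (fun m => hPm _) hLs hfin)
  obtain ⟨N2, hN2⟩ := eventually_atTop.1
    (evb n C Γ hCC K h.three (fun m a => img (g (φ₂ (m + N))) (L a)) (fun m => x (φ₂ (m + N)))
      L' W β (fun m => hxB _) (fun m => h.strict _ _ _ (hxB _) (hPm _)) hBW
      (h.strict _ _ _ hBW hPL) (h.fam.full _ hPL) (fun m => hN (m + N) (by omega))
      (fun a => limS_add (hLa a) N))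
  refine ⟨fun m => φ (φ₂ (m + N2 + N)), fun m => g (φ₂ (m + N2 + N)),
    fun m => s (φ₂ (m + N2 + N)), L', W, ?_, fun m => hg _, fun m => hs _, hBW, hPL, ?_, ?_⟩
  · intro a b hab
    exact hφ (hφ₂ (by omega))
  · intro i
    have h1 : Tendsto (fun m => x (φ₂ (m + N2 + N)) i) atTop (𝓝 (W i)) := by
      have h2 : Tendsto (fun m => x (φ₂ (m + (N2 + N))) i) atTop (𝓝 (W i)) :=
        (tendsto_add_atTop_iff_nat (f := fun m => x (φ₂ m) i) (N2 + N)).2 (hxW i)
      refine h2.congr fun m => ?_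
      rw [add_assoc]
    refine h1.congr fun m => ?_
    rw [hxv]
  · intro m a
    exact hN2 (m + N2) (by omega) a

end Pool.Agent.PFJ.H13
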